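import Pool.Agent.H180.GK.Stm

/-! Project GK (helper180), job GK-Prod: the square of a space with a point separating family. -/

open Set Topology Pool.Agent.Helper535 Pool.Agent.H180.GK

namespace Pool.Agent.Q94.GK

universe u v

theorem prod : Pool.Agent.H180.GK.S_Prod.{u, v} := by
  rintro X _ E _ ⟨S, h, e, hF, hsep⟩
  refine ⟨S ⊕ S, Sum.elim (fun s => (h s).comp ⟨Prod.fst, continuous_fst⟩)
    (fun s => (h s).comp ⟨Prod.snd, continuous_snd⟩),
    Sum.elim (fun s => Sum.inl (e s)) (fun s => Sum.inr (e s)), ⟨?_, ?_⟩, ?_⟩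
  · rintro (s | s) x
    exacts [hF.bdd s x.1, hF.bdd s x.2]
  · rintro x (z | z) ε hε
    · obtain ⟨O, hO, hfin⟩ := hF.fin x.1 z ε hε
      refine ⟨Sum.inl '' O, IsOpenEmbedding.inl.image_mem_nhds.2 hO,
        (hfin.image Sum.inl).subset ?_⟩
      rintro (s | s) ⟨⟨y, hy, hye⟩, hs⟩
      · have h1 : y = e s := Sum.inl_injective hye
        exact ⟨s, ⟨h1 ▸ hy, hs⟩, rfl⟩
      · exact absurd hye Sum.inl_ne_inr
    · obtain ⟨O, hO, hfin⟩ := hF.fin x.2 z ε hε
      refine ⟨Sum.inr '' O, IsOpenEmbedding.inr.image_mem_nhds.2 hO,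
        (hfin.image Sum.inr).subset ?_⟩
      rintro (s | s) ⟨⟨y, hy, hye⟩, hs⟩
      · exact absurd hye Sum.inr_ne_inl
      · have h1 : y = e s := Sum.inr_injective hye
        exact ⟨s, ⟨h1 ▸ hy, hs⟩, rfl⟩
  · intro x y hxy
    exact Prod.ext (hsep _ _ fun s => hxy (Sum.inl s)) (hsep _ _ fun s => hxy (Sum.inr s))

end Pool.Agent.Q94.GK
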